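import Pool.Agent.TH116.PT.Powers

/-!
# Viehweg's inequality with variation: sublinear defects near general type are enough
-/

universe u

namespace Pool.Agent.Results.MP_5c318e_ag.SublinearDefect

open Pool.Agent.TH116.PT

/-- Fibrations `X → Y` of smooth complex projective varieties with `κ(F) ≥ 0` and `κ(Y) ≥ 0`, their
products, Kodaira dimensions (`⊥` is `-∞`), dimensions and variations. -/
structure Fibrations where
  /-- the fibrations `X → Y` with `κ(F) ≥ 0` and `κ(Y) ≥ 0` -/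
  Fib : Type u
  /-- the Kodaira dimension of the total space -/
  κX : Fib → WithBot ℕ
  /-- the Kodaira dimension of the general fibre -/
  κF : Fib → ℕ
  /-- the Kodaira dimension of the base -/
  κY : Fib → ℕ
  /-- the variation -/
  var : Fib → ℕ
  /-- the dimension of the fibres -/
  dimF : Fib → ℕ
  /-- the dimension of the base -/
  dimY : Fib → ℕ
  κF_le : ∀ f, κF f ≤ dimF f
  κY_le : ∀ f, κY f ≤ dimY f
  var_le : ∀ f, var f ≤ dimY f
  /-- the product `X × X' → Y × Y'` of two fibrations -/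
  mul : Fib → Fib → Fib
  κX_mul : ∀ f g, κX (mul f g) = κX f + κX g
  κF_mul : ∀ f g, κF (mul f g) = κF f + κF g
  κY_mul : ∀ f g, κY (mul f g) = κY f + κY g
  var_mul : ∀ f g, var (mul f g) = var f + var g
  dimF_mul : ∀ f g, dimF (mul f g) = dimF f + dimF g
  dimY_mul : ∀ f g, dimY (mul f g) = dimY f + dimY g
  /-- a non-isotrivial family of curves of genus at least two over a curve of genus at least two -/
  curve : Fib
  κX_curve : κX curve = ((2 : ℕ) : WithBot ℕ)
  κF_curve : κF curve = 1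
  κY_curve : κY curve = 1
  var_curve : var curve = 1
  dimF_curve : dimF curve = 1
  dimY_curve : dimY curve = 1

variable (T : Fibrations.{u})

/-- The objects `f` with expected Kodaira dimension `κ(F) + max (κ(Y), Var(f))`. -/
def defect : DefectTheory.{u} where
  F := T.Fib
  κ := T.κX
  e f := ((T.κF f + max (T.κY f) (T.var f) : ℕ) : WithBot ℕ)
  dim f := T.dimF f + T.dimY f
  e_le f := by
    rw [Nat.cast_le]
    exact add_le_add (T.κF_le f) (max_le (T.κY_le f) (T.var_le f))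
  pow := powOf T.mul
  κ_pow := powOf_additive T.mul T.κX_mul
  e_pow f n := by
    rw [powOf_nat' T.mul T.κF_mul, powOf_nat' T.mul T.κY_mul, powOf_nat' T.mul T.var_mul,
      nsmul_coe, Nat.mul_max_mul_left, mul_add]
  dim_pow f n := by
    rw [powOf_nat' T.mul T.dimF_mul, powOf_nat' T.mul T.dimY_mul, mul_add]
  u := 2
  one_le_u := by norm_num
  tw := twOf T.mul T.curve
  κ_tw f m := twOf_nat T.mul T.κX_mul T.curve f 2 T.κX_curve m
  e_tw f m := by
    rw [twOf_nat' T.mul T.κF_mul T.curve f 1 T.κF_curve m,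
      twOf_nat' T.mul T.κY_mul T.curve f 1 T.κY_curve m,
      twOf_nat' T.mul T.var_mul T.curve f 1 T.var_curve m, ← Nat.cast_add]
    congr 1
    omega
  dim_tw f m := by
    rw [twOf_nat' T.mul T.dimF_mul T.curve f 1 T.dimF_curve m,
      twOf_nat' T.mul T.dimY_mul T.curve f 1 T.dimY_curve m]
    ring

/-- Viehweg's inequality for all fibrations with `κ(F), κ(Y) ≥ 0`, versus: the inequality up to an
error `ε (dim X - κ(F) - max (κ(Y), Var(f))) + C` for the fibrations with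
`κ(F) ≥ (1 - η) dim F`, `κ(Y) ≥ (1 - η) dim Y` and `Var(f) ≥ (1 - η) dim Y`. -/
theorem result (η : ℝ) (hη : 0 < η) :
    (∀ f : T.Fib, ((T.κF f + max (T.κY f) (T.var f) : ℕ) : WithBot ℕ) ≤ T.κX f) ↔
      ∀ ε : ℝ, 0 < ε → ∃ C : ℝ, ∀ (f : T.Fib) (a : ℕ),
        a = T.κF f + max (T.κY f) (T.var f) →
        (1 - η) * T.dimF f ≤ T.κF f → (1 - η) * T.dimY f ≤ T.κY f →
        (1 - η) * T.dimY f ≤ T.var f →
        ε * ((T.dimF f + T.dimY f) - a) + C < a →
        ∃ c : ℕ, T.κX f = (c : WithBot ℕ) ∧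
          (a : ℝ) - (ε * ((T.dimF f + T.dimY f) - a) + C) ≤ c := by
  have key := (defect T).iff_eventually
    (fun f => (1 - η) * T.dimF f ≤ T.κF f ∧ (1 - η) * T.dimY f ≤ T.κY f ∧
      (1 - η) * T.dimY f ≤ T.var f) (by
    intro f _
    obtain ⟨M₁, hM₁⟩ := eventually_near η hη (T.κF f) (T.dimF f) 1 le_rfl
    obtain ⟨M₂, hM₂⟩ := eventually_near η hη (T.κY f) (T.dimY f) 1 le_rfl
    obtain ⟨M₃, hM₃⟩ := eventually_near η hη (T.var f) (T.dimY f) 1 le_rfl
    refine ⟨M₁ + M₂ + M₃, fun m hm => ⟨?_, ?_, ?_⟩⟩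
    · show (1 - η) * ((T.dimF (twOf T.mul T.curve f m) : ℕ) : ℝ) ≤
        ((T.κF (twOf T.mul T.curve f m) : ℕ) : ℝ)
      rw [twOf_nat' T.mul T.dimF_mul T.curve f 1 T.dimF_curve m,
        twOf_nat' T.mul T.κF_mul T.curve f 1 T.κF_curve m]
      exact hM₁ m (by omega)
    · show (1 - η) * ((T.dimY (twOf T.mul T.curve f m) : ℕ) : ℝ) ≤
        ((T.κY (twOf T.mul T.curve f m) : ℕ) : ℝ)
      rw [twOf_nat' T.mul T.dimY_mul T.curve f 1 T.dimY_curve m,
        twOf_nat' T.mul T.κY_mul T.curve f 1 T.κY_curve m]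
      exact hM₂ m (by omega)
    · show (1 - η) * ((T.dimY (twOf T.mul T.curve f m) : ℕ) : ℝ) ≤
        ((T.var (twOf T.mul T.curve f m) : ℕ) : ℝ)
      rw [twOf_nat' T.mul T.dimY_mul T.curve f 1 T.dimY_curve m,
        twOf_nat' T.mul T.var_mul T.curve f 1 T.var_curve m]
      exact hM₃ m (by omega))
  refine Iff.trans key ?_
  constructor
  · intro h ε hε
    obtain ⟨C, hC⟩ := h ε hε
    refine ⟨C, fun f a ha h1 h2 h3 hlt => ?_⟩
    subst ha
    obtain ⟨c, hc, hle⟩ := hC f _ rfl ⟨h1, h2, h3⟩ _ rfl (by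
      show ε * (((T.dimF f + T.dimY f : ℕ) : ℝ) -
        ((T.κF f + max (T.κY f) (T.var f) : ℕ) : ℝ)) + C < _
      push_cast at hlt ⊢
      exact hlt)
    refine ⟨c, hc, ?_⟩
    have hle' : ((T.κF f + max (T.κY f) (T.var f) : ℕ) : ℝ) -
        (ε * (((T.dimF f + T.dimY f : ℕ) : ℝ) -
          ((T.κF f + max (T.κY f) (T.var f) : ℕ) : ℝ)) + C) ≤ c := hle
    push_cast at hle' ⊢
    exact hle'
  · intro h ε hε
    obtain ⟨C, hC⟩ := h ε hε
    refine ⟨C, fun f a ha hN a' ha' hlt => ?_⟩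
    obtain ⟨h1, h2, h3⟩ := hN
    have he : a = T.κF f + max (T.κY f) (T.var f) := by
      have : ((T.κF f + max (T.κY f) (T.var f) : ℕ) : WithBot ℕ) = (a : WithBot ℕ) := ha
      exact_mod_cast this.symm
    have he' : a' = T.κF f + max (T.κY f) (T.var f) := by
      have : ((T.κF f + max (T.κY f) (T.var f) : ℕ) : WithBot ℕ) = (a' : WithBot ℕ) := ha'
      exact_mod_cast this.symm
    have haa : a' = a := he'.trans he.symm
    subst haa
    have hlt' : ε * (((T.dimF f + T.dimY f : ℕ) : ℝ) - (a' : ℝ)) + C < a' := hlt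
    rw [Nat.cast_add] at hlt'
    obtain ⟨c, hc, hle⟩ := hC f a' he h1 h2 h3 hlt'
    refine ⟨c, hc, ?_⟩
    show (a' : ℝ) - (ε * (((T.dimF f + T.dimY f : ℕ) : ℝ) - (a' : ℝ)) + C) ≤ c
    rw [Nat.cast_add]
    exact hle

end Pool.Agent.Results.MP_5c318e_ag.SublinearDefect
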